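import Pool.Agent.Helper19.SQ.GoalsQ2

/-!
Helper64, packet SQ-SD (11719) of helper4: `S D1(a) = D2(a) S`.
-/

namespace Pool.Agent.Helper64.SQ

open Pool.Agent.Helper19.SQ Matrix

noncomputable section

section

variable {A : Type} [Ring A] [Algebra ℂ A] {κ : Type} [Fintype κ] [DecidableEq κ]

/-- a matrix of numbers times an element of the algebra. -/
def sg (M : Matrix κ κ ℂ) (g : A) : Matrix κ κ A := Matrix.of fun x y => M x y • g

theorem sg_comm {S M1 M2 : Matrix κ κ ℂ} (h : S * M1 = M2 * S) (g : A) :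
    sc A S * sg M1 g = sg M2 g * sc A S := by
  ext x y
  simp only [Matrix.mul_apply, sc, Matrix.map_apply, sg, Matrix.of_apply,
    Algebra.algebraMap_eq_smul_one, smul_mul_smul_comm, one_mul, mul_one]
  rw [← Finset.sum_smul, ← Finset.sum_smul]
  have h1 := congrFun (congrFun h x) y
  simp only [Matrix.mul_apply] at h1
  rw [h1]

theorem diag_comm {S : Matrix κ κ ℂ} {d1 d2 : κ → ℂ} (h : ∀ x y, S x y ≠ 0 → d1 y = d2 x) :
    S * Matrix.diagonal d1 = Matrix.diagonal d2 * S := by
  ext x y
  rw [Matrix.mul_diagonal, Matrix.diagonal_mul]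
  by_cases h0 : S x y = 0
  · rw [h0]; simp
  · rw [h x y h0]; ring

end

theorem Smat_ne {N : ℕ} {q : ℂ} {x y : Fin (N + 1) × Fin (N + 1)} (h : Smat N q x y ≠ 0) :
    (x.1 = x.2 ∧ y.1 = y.2) ∨ (x.1 = y.2 ∧ x.2 = y.1) := by
  unfold Smat at h
  rw [Matrix.of_apply] at h
  by_cases h1 : y.1 = y.2
  · rw [if_pos h1] at h
    by_cases h2 : x.1 = x.2
    · left; exact ⟨h2, h1⟩
    · rw [if_neg h2] at h; exact absurd rfl h
  · rw [if_neg h1] at h
    by_cases h2 : x.1 = y.2 ∧ x.2 = y.1
    · right; exact h2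
    · rw [if_neg h2] at h; exact absurd rfl h

/-- a diagonal family compatible with `S`. -/
theorem Smat_diag {N : ℕ} {q : ℂ} (hq : q ≠ 0) (f : Fin (N + 1) → ℤ) :
    Smat N q * Matrix.diagonal (fun y => q ^ (f y.2 - f y.1))
      = Matrix.diagonal (fun x => q ^ (f x.1 - f x.2)) * Smat N q := by
  apply diag_comm
  intro x y h
  rcases Smat_ne h with ⟨h1, h2⟩ | ⟨h1, h2⟩
  · rw [h1, h2]; simp
  · rw [h1, h2]

variable {N l : ℕ} {q : ℂ}

theorem D1_mul (δ ε : A N l q →ₐ[ℂ] Mat N (A N l q)) (a b : A N l q) :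
    D1 δ ε (a * b) = D1 δ ε a * D1 δ ε b := by
  ext x y
  simp only [D1, Matrix.of_apply, Matrix.mul_apply, map_mul, map_sum, Fintype.sum_prod_type,
    Matrix.sum_apply]

theorem D2_mul (δ ε : A N l q →ₐ[ℂ] Mat N (A N l q)) (a b : A N l q) :
    D2 δ ε (a * b) = D2 δ ε a * D2 δ ε b := by
  ext x y
  simp only [D2, Matrix.of_apply, Matrix.mul_apply, map_mul, map_sum, Fintype.sum_prod_type,
    Matrix.sum_apply]

theorem D1_add (δ ε : A N l q →ₐ[ℂ] Mat N (A N l q)) (a b : A N l q) :
    D1 δ ε (a + b) = D1 δ ε a + D1 δ ε b := by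
  ext x y
  simp only [D1, Matrix.of_apply, map_add, Matrix.add_apply]

theorem D2_add (δ ε : A N l q →ₐ[ℂ] Mat N (A N l q)) (a b : A N l q) :
    D2 δ ε (a + b) = D2 δ ε a + D2 δ ε b := by
  ext x y
  simp only [D2, Matrix.of_apply, map_add, Matrix.add_apply]

theorem D1_alg (δ ε : A N l q →ₐ[ℂ] Mat N (A N l q)) (c : ℂ) :
    D1 δ ε (algebraMap ℂ (A N l q) c) = sg (Matrix.diagonal fun _ => c) (1 : A N l q) := by
  ext x y
  rw [D1, Matrix.of_apply, AlgHom.commutes, Matrix.algebraMap_eq_diagonal, sg, Matrix.of_apply,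
    Matrix.diagonal_apply, Matrix.diagonal_apply]
  by_cases h : x.1 = y.1
  · rw [if_pos h]
    simp only [Pi.algebraMap_apply]
    rw [AlgHom.commutes, Matrix.algebraMap_eq_diagonal, Matrix.diagonal_apply]
    by_cases h' : x.2 = y.2
    · rw [if_pos h', if_pos (Prod.ext h h')]
      simp [Algebra.algebraMap_eq_smul_one]
    · rw [if_neg h', if_neg (fun e => h' (by rw [e])), zero_smul]
  · rw [if_neg h, if_neg (fun e => h (by rw [e]))]
    simp

theorem D2_alg (δ ε : A N l q →ₐ[ℂ] Mat N (A N l q)) (c : ℂ) :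
    D2 δ ε (algebraMap ℂ (A N l q) c) = sg (Matrix.diagonal fun _ => c) (1 : A N l q) := by
  have : D2 δ ε (algebraMap ℂ (A N l q) c) = D1 ε δ (algebraMap ℂ (A N l q) c) := rfl
  rw [this, D1_alg]

theorem q_pred (hP : Par N l q) : q ^ (l - 1) = q⁻¹ := by
  have h3 := hP.h3
  have hq := hP.prim.ne_zero (by omega)
  have h1 := hP.prim.pow_eq_one
  have h2 : q ^ (l - 1) * q = 1 := by
    rw [← pow_succ, show l - 1 + 1 = l by omega, h1]
  field_simp
  exact h2

theorem dl_KK (hP : Par N l q) (D : Dl N l q) (k : ℕ) :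
    D.dl (gK N l q (k + 1) * ki l (gK N l q) k)
      = Matrix.diagonal fun x : Fin (N + 1) =>
          q ^ (-pr x k) • (gK N l q (k + 1) * ki l (gK N l q) k) := by
  have hq := hP.prim.ne_zero (by have := hP.h3; omega)
  have e1 : ∀ j, dK N q (gK N l q) j = Matrix.diagonal fun x : Fin (N + 1) =>
      (if (x : ℕ) = j then q else 1) • gK N l q j := by
    intro j
    ext a b
    rw [dK, Matrix.of_apply, Matrix.diagonal_apply]
  unfold ki
  rw [map_mul, map_pow, D.dl_K, D.dl_K, e1, e1, Matrix.diagonal_pow, Matrix.diagonal_mul_diagonal]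
  congr 1
  funext x
  rw [Pi.pow_apply, smul_pow, smul_mul_smul_comm]
  congr 1
  unfold pr
  by_cases h1 : (x : ℕ) = k
  · have h2 : ¬ ((x : ℕ) = k + 1) := by omega
    rw [if_neg h2, if_pos h1, if_pos h1, q_pred hP]
    simp
  · rw [if_neg h1, if_neg h1]
    by_cases h2 : (x : ℕ) = k + 1
    · rw [if_pos h2, if_pos h2]; simp
    · rw [if_neg h2, if_neg h2]; simp

theorem ep_KK (hP : Par N l q) (D : Dl N l q) (k : ℕ) :
    D.ep (gK N l q (k + 1) * ki l (gK N l q) k)
      = Matrix.diagonal fun x : Fin (N + 1) =>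
          q ^ (pr x k) • (gK N l q (k + 1) * ki l (gK N l q) k) := by
  have hq := hP.prim.ne_zero (by have := hP.h3; omega)
  have e1 : ∀ j, eK N q (gK N l q) j = Matrix.diagonal fun x : Fin (N + 1) =>
      (if (x : ℕ) = j then q⁻¹ else 1) • gK N l q j := by
    intro j
    ext a b
    rw [eK, Matrix.of_apply, Matrix.diagonal_apply]
  unfold ki
  rw [map_mul, map_pow, D.ep_K, D.ep_K, e1, e1, Matrix.diagonal_pow, Matrix.diagonal_mul_diagonal]
  congr 1
  funext x
  rw [Pi.pow_apply, smul_pow, smul_mul_smul_comm]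
  congr 1
  unfold pr
  by_cases h1 : (x : ℕ) = k
  · have h2 : ¬ ((x : ℕ) = k + 1) := by omega
    rw [if_neg h2, if_pos h1, if_pos h1, inv_pow, q_pred hP]
    simp
  · rw [if_neg h1, if_neg h1]
    by_cases h2 : (x : ℕ) = k + 1
    · rw [if_pos h2, if_pos h2]; simp
    · rw [if_neg h2, if_neg h2]; simp

theorem pair_eq (x y : Fin (N + 1) × Fin (N + 1)) :
    (x = y) = (x.1 = y.1 ∧ x.2 = y.2) := propext Prod.ext_iff

theorem D1_E (hq : q ≠ 0) (D : Dl N l q) (k : ℕ) :
    D1 D.dl D.ep (gE N l q k) = sg (M1E N q k) (1 : A N l q)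
      + sg (Matrix.diagonal fun y : Fin (N + 1) × Fin (N + 1) => q ^ (pr y.2 k - pr y.1 k))
        (gE N l q k) := by
  ext x y
  rw [D1, Matrix.of_apply, D.ep_E, eE, Matrix.of_apply, map_add, Matrix.add_apply,
    Matrix.add_apply, sg, Matrix.of_apply, sg, Matrix.of_apply, M1E, Matrix.of_apply,
    Matrix.diagonal_apply]
  simp only [pair_eq x y]
  by_cases h1 : x.1 = y.1
  · have h2 : ¬ ((x.1 : ℕ) = k + 1 ∧ (y.1 : ℕ) = k) := by
      rw [h1]; omega
    by_cases h3 : x.2 = y.2
    · have h4 : ¬ ((x.2 : ℕ) = k ∧ (y.2 : ℕ) = k + 1) := by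
        rw [h3]; omega
      simp only [eq_true h1, eq_false h2, eq_true h3, eq_false h4, if_true, if_false, and_true,
        and_false, map_zero, Matrix.zero_apply, add_zero, zero_smul, zero_add, map_smul,
        D.dl_E, dE, Matrix.smul_apply, Matrix.of_apply, smul_smul]
      rw [← zpow_add₀ hq]
      congr 2
      ring
    · by_cases h4 : (x.2 : ℕ) = k ∧ (y.2 : ℕ) = k + 1
      · simp only [eq_true h1, eq_false h2, eq_false h3, eq_true h4, if_true, if_false, and_true,
          and_false, map_zero, Matrix.zero_apply, add_zero, zero_smul, zero_add, map_smul,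
          D.dl_E, dE, Matrix.smul_apply, Matrix.of_apply]
      · simp only [eq_true h1, eq_false h2, eq_false h3, eq_false h4, if_true, if_false, and_true,
          and_false, map_zero, Matrix.zero_apply, add_zero, zero_smul, map_smul,
          D.dl_E, dE, Matrix.smul_apply, Matrix.of_apply, smul_zero]
  · by_cases h2 : (x.1 : ℕ) = k + 1 ∧ (y.1 : ℕ) = k
    · by_cases h3 : x.2 = y.2
      · simp only [eq_false h1, eq_true h2, eq_true h3, if_true, if_false, and_true,
          false_and, map_zero, Matrix.zero_apply, add_zero, zero_smul, zero_add, map_smul, map_one,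
          Matrix.smul_apply, Matrix.one_apply]
      · simp only [eq_false h1, eq_true h2, eq_false h3, if_true, if_false,
          false_and, and_false, map_zero, Matrix.zero_apply, add_zero, zero_smul,
          map_smul, map_one, Matrix.smul_apply, Matrix.one_apply, smul_zero]
    · simp only [eq_false h1, eq_false h2, if_false,
          false_and, map_zero, Matrix.zero_apply, add_zero, zero_smul]

theorem D2_E (hq : q ≠ 0) (D : Dl N l q) (k : ℕ) :
    D2 D.dl D.ep (gE N l q k) = sg (M2E N q k) (1 : A N l q)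
      + sg (Matrix.diagonal fun y : Fin (N + 1) × Fin (N + 1) => q ^ (pr y.1 k - pr y.2 k))
        (gE N l q k) := by
  ext x y
  rw [D2, Matrix.of_apply, D.dl_E, dE, Matrix.of_apply, map_add, Matrix.add_apply,
    Matrix.add_apply, sg, Matrix.of_apply, sg, Matrix.of_apply, M2E, Matrix.of_apply,
    Matrix.diagonal_apply]
  simp only [pair_eq x y]
  by_cases h1 : x.1 = y.1
  · have h2 : ¬ ((x.1 : ℕ) = k ∧ (y.1 : ℕ) = k + 1) := by
      rw [h1]; omega
    by_cases h3 : x.2 = y.2
    · have h4 : ¬ ((x.2 : ℕ) = k + 1 ∧ (y.2 : ℕ) = k) := by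
        rw [h3]; omega
      simp only [eq_true h1, eq_false h2, eq_true h3, eq_false h4, if_true, if_false, and_true,
        and_false, map_zero, Matrix.zero_apply, add_zero, zero_smul, zero_add, map_smul,
        D.ep_E, eE, Matrix.smul_apply, Matrix.of_apply, smul_smul]
      rw [← zpow_add₀ hq]
      congr 2
    · by_cases h4 : (x.2 : ℕ) = k + 1 ∧ (y.2 : ℕ) = k
      · simp only [eq_true h1, eq_false h2, eq_false h3, eq_true h4, if_true, if_false, and_true,
          and_false, map_zero, Matrix.zero_apply, add_zero, zero_smul, zero_add, map_smul,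
          D.ep_E, eE, Matrix.smul_apply, Matrix.of_apply, smul_smul]
        rw [mul_comm]
      · simp only [eq_true h1, eq_false h2, eq_false h3, eq_false h4, if_true, if_false, and_true,
          and_false, map_zero, Matrix.zero_apply, add_zero, zero_smul, map_smul,
          D.ep_E, eE, Matrix.smul_apply, Matrix.of_apply, smul_zero]
  · by_cases h2 : (x.1 : ℕ) = k ∧ (y.1 : ℕ) = k + 1
    · by_cases h3 : x.2 = y.2
      · simp only [eq_false h1, eq_true h2, eq_true h3, if_true, if_false, and_true,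
          false_and, map_zero, Matrix.zero_apply, add_zero, zero_smul, zero_add, map_one,
          Matrix.one_apply, one_smul]
      · simp only [eq_false h1, eq_true h2, eq_false h3, if_true, if_false,
          false_and, and_false, map_zero, Matrix.zero_apply, add_zero, zero_smul,
          map_one, Matrix.one_apply]
    · simp only [eq_false h1, eq_false h2, if_false,
          false_and, map_zero, Matrix.zero_apply, add_zero, zero_smul]

theorem D1_F (hP : Par N l q) (D : Dl N l q) (k : ℕ) :
    D1 D.dl D.ep (gF N l q k) = sg 1 (gF N l q k)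
      + sg (M1F N q k) (gK N l q (k + 1) * ki l (gK N l q) k) := by
  ext x y
  rw [D1, Matrix.of_apply, D.ep_F, eF, Matrix.of_apply, map_add, Matrix.add_apply,
    Matrix.add_apply, sg, Matrix.of_apply, sg, Matrix.of_apply, M1F, Matrix.of_apply,
    Matrix.one_apply]
  simp only [pair_eq x y]
  by_cases h1 : x.1 = y.1
  · have h2 : ¬ ((x.1 : ℕ) = k ∧ (y.1 : ℕ) = k + 1) := by
      rw [h1]; omega
    by_cases h3 : x.2 = y.2
    · have h4 : ¬ ((x.2 : ℕ) = k + 1 ∧ (y.2 : ℕ) = k) := by
        rw [h3]; omega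
      simp only [eq_true h1, eq_false h2, eq_true h3, eq_false h4, if_true, if_false, and_true,
        and_false, map_zero, Matrix.zero_apply, add_zero, zero_smul, one_smul,
        D.dl_F, dF, Matrix.of_apply]
    · by_cases h4 : (x.2 : ℕ) = k + 1 ∧ (y.2 : ℕ) = k
      · simp only [eq_true h1, eq_false h2, eq_false h3, eq_true h4, if_true, if_false, and_true,
          and_false, map_zero, Matrix.zero_apply, add_zero, zero_smul, zero_add, one_smul,
          D.dl_F, dF, Matrix.of_apply]
      · simp only [eq_true h1, eq_false h2, eq_false h3, eq_false h4, if_true, if_false,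
          and_false, map_zero, Matrix.zero_apply, add_zero, zero_smul,
          D.dl_F, dF, Matrix.of_apply]
  · by_cases h2 : (x.1 : ℕ) = k ∧ (y.1 : ℕ) = k + 1
    · by_cases h3 : x.2 = y.2
      · simp only [eq_false h1, eq_true h2, eq_true h3, if_true, if_false, and_true,
          false_and, map_zero, Matrix.zero_apply, zero_smul, zero_add, map_smul,
          dl_KK hP, Matrix.smul_apply, Matrix.diagonal_apply, smul_smul]
      · simp only [eq_false h1, eq_true h2, eq_false h3, if_true, if_false,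
          false_and, and_false, map_zero, Matrix.zero_apply, add_zero, zero_smul,
          map_smul, dl_KK hP, Matrix.smul_apply, Matrix.diagonal_apply, smul_zero]
    · simp only [eq_false h1, eq_false h2, if_false,
          false_and, map_zero, Matrix.zero_apply, add_zero, zero_smul]

theorem D2_F (hP : Par N l q) (D : Dl N l q) (k : ℕ) :
    D2 D.dl D.ep (gF N l q k) = sg 1 (gF N l q k)
      + sg (M2F N q k) (gK N l q (k + 1) * ki l (gK N l q) k) := by
  ext x y
  rw [D2, Matrix.of_apply, D.dl_F, dF, Matrix.of_apply, map_add, Matrix.add_apply,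
    Matrix.add_apply, sg, Matrix.of_apply, sg, Matrix.of_apply, M2F, Matrix.of_apply,
    Matrix.one_apply]
  simp only [pair_eq x y]
  by_cases h1 : x.1 = y.1
  · have h2 : ¬ ((x.1 : ℕ) = k + 1 ∧ (y.1 : ℕ) = k) := by
      rw [h1]; omega
    by_cases h3 : x.2 = y.2
    · have h4 : ¬ ((x.2 : ℕ) = k ∧ (y.2 : ℕ) = k + 1) := by
        rw [h3]; omega
      simp only [eq_true h1, eq_false h2, eq_true h3, eq_false h4, if_true, if_false, and_true,
        and_false, map_zero, Matrix.zero_apply, add_zero, zero_smul, one_smul,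
        D.ep_F, eF, Matrix.of_apply]
    · by_cases h4 : (x.2 : ℕ) = k ∧ (y.2 : ℕ) = k + 1
      · simp only [eq_true h1, eq_false h2, eq_false h3, eq_true h4, if_true, if_false, and_true,
          and_false, map_zero, Matrix.zero_apply, add_zero, zero_smul, zero_add,
          D.ep_F, eF, Matrix.of_apply]
      · simp only [eq_true h1, eq_false h2, eq_false h3, eq_false h4, if_true, if_false,
          and_false, map_zero, Matrix.zero_apply, add_zero, zero_smul,
          D.ep_F, eF, Matrix.of_apply]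
  · by_cases h2 : (x.1 : ℕ) = k + 1 ∧ (y.1 : ℕ) = k
    · by_cases h3 : x.2 = y.2
      · simp only [eq_false h1, eq_true h2, eq_true h3, if_true, if_false, and_true,
          false_and, map_zero, Matrix.zero_apply, zero_smul, zero_add,
          ep_KK hP, Matrix.diagonal_apply]
      · simp only [eq_false h1, eq_true h2, eq_false h3, if_true, if_false,
          false_and, and_false, map_zero, Matrix.zero_apply, add_zero, zero_smul,
          ep_KK hP, Matrix.diagonal_apply]
    · simp only [eq_false h1, eq_false h2, if_false,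
          false_and, map_zero, Matrix.zero_apply, add_zero, zero_smul]

/-- `[a = m]`. -/
def iz (a m : ℕ) : ℤ := if a = m then 1 else 0

theorem D1_K (hq : q ≠ 0) (D : Dl N l q) (m : ℕ) :
    D1 D.dl D.ep (gK N l q m)
      = sg (Matrix.diagonal fun y : Fin (N + 1) × Fin (N + 1) => q ^ (iz y.2 m - iz y.1 m))
        (gK N l q m) := by
  ext x y
  rw [D1, Matrix.of_apply, D.ep_K, eK, Matrix.of_apply, sg, Matrix.of_apply,
    Matrix.diagonal_apply]
  by_cases h1 : x.1 = y.1
  · rw [if_pos h1, map_smul, Matrix.smul_apply, D.dl_K, dK, Matrix.of_apply]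
    by_cases h3 : x.2 = y.2
    · rw [if_pos h3, if_pos (Prod.ext h1 h3), smul_smul]
      congr 1
      unfold iz
      rw [zpow_sub₀ hq]
      split_ifs <;> simp [hq]
    · have h4 : ¬ x = y := fun e => h3 (by rw [e])
      rw [if_neg h3, if_neg h4]
      simp
  · rw [if_neg h1, map_zero, Matrix.zero_apply, if_neg (fun e => h1 (by rw [e]))]
    simp

theorem D2_K (hq : q ≠ 0) (D : Dl N l q) (m : ℕ) :
    D2 D.dl D.ep (gK N l q m)
      = sg (Matrix.diagonal fun y : Fin (N + 1) × Fin (N + 1) => q ^ (iz y.1 m - iz y.2 m))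
        (gK N l q m) := by
  ext x y
  rw [D2, Matrix.of_apply, D.dl_K, dK, Matrix.of_apply, sg, Matrix.of_apply,
    Matrix.diagonal_apply]
  by_cases h1 : x.1 = y.1
  · rw [if_pos h1, map_smul, Matrix.smul_apply, D.ep_K, eK, Matrix.of_apply]
    by_cases h3 : x.2 = y.2
    · rw [if_pos h3, if_pos (Prod.ext h1 h3), smul_smul]
      congr 1
      unfold iz
      rw [zpow_sub₀ hq]
      split_ifs <;> simp [hq]
    · have h4 : ¬ x = y := fun e => h3 (by rw [e])
      rw [if_neg h3, if_neg h4]
      simp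
  · rw [if_neg h1, map_zero, Matrix.zero_apply, if_neg (fun e => h1 (by rw [e]))]
    simp

/-- SD. -/
theorem sSD (hSE : S_SE) (hSF : S_SF) : S_SD := by
  intro N l q hP D a
  have hq := hP.prim.ne_zero (by have := hP.h3; omega)
  refine A_induction (P := fun a => sc (A N l q) (Smat N q) * D1 D.dl D.ep a
    = D2 D.dl D.ep a * sc (A N l q) (Smat N q)) ?_ ?_ ?_ ?_ ?_ ?_ a
  · intro c
    rw [D1_alg, D2_alg]
    exact sg_comm (diag_comm fun _ _ _ => rfl) 1
  · intro k
    rw [D1_E hq, D2_E hq, mul_add, add_mul, sg_comm (hSE N q hq k) 1,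
      sg_comm (Smat_diag hq fun a => pr a k) (gE N l q k)]
  · intro k
    rw [D1_F hP, D2_F hP, mul_add, add_mul, sg_comm (hSF N q hq k),
      sg_comm (S := Smat N q) (M1 := 1) (M2 := 1) (by rw [mul_one, one_mul]) (gF N l q k)]
  · intro m
    rw [D1_K hq, D2_K hq, sg_comm (Smat_diag hq fun a => iz a m) (gK N l q m)]
  · intro a b ha hb
    rw [D1_add, D2_add, mul_add, add_mul, ha, hb]
  · intro a b ha hb
    rw [D1_mul, D2_mul, ← mul_assoc, ha, mul_assoc, hb, mul_assoc]

end

end Pool.Agent.Helper64.SQ
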