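import Pool.Agent.Helper19.SQ.GoalsS

/-!
Helper64, packet SQ-TFN (11687) of helper19: the form `t` is nondegenerate.
-/

namespace Pool.Agent.Helper64.SQ

open Pool.Agent.Helper19.SQ

noncomputable section

theorem par_facts {N l : ℕ} {q : ℂ} (h : Par N l q) : q ≠ 0 ∧ q ^ 2 ≠ 1 ∧ q ^ 2 ≠ -1 := by
  have h3 := h.h3
  have hodd := h.odd
  refine ⟨h.prim.ne_zero (by omega), ?_, ?_⟩
  · intro h2
    have := h.prim.dvd_of_pow_eq_one 2 h2
    have := Nat.le_of_dvd (by norm_num) this
    omega
  · intro h2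
    have h4 : q ^ 4 = 1 := by
      have : q ^ 4 = (q ^ 2) ^ 2 := by ring
      rw [this, h2]; norm_num
    have hd := h.prim.dvd_of_pow_eq_one 4 h4
    have hle := Nat.le_of_dvd (by norm_num) hd
    obtain ⟨m, hm⟩ := hodd
    have h33 : l = 3 := by omega
    rw [h33] at hd
    omega

section Gen

variable {B : Type} [Ring B] [Algebra ℂ B] {N l : ℕ} {q : ℂ} {E : ℕ → B}

theorem mon_zero (hp : ∀ d i, rvA q E d i ^ l = 0) (b : ℕ → ℕ → ℕ) (i j : ℕ) (hij : i < j)
    (hj : j ≤ N) (hb : l ≤ b i j) : mon N q E b = 0 := by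
  unfold mon
  apply List.prod_eq_zero
  rw [List.mem_map]
  refine ⟨i, List.mem_range.2 (by omega), ?_⟩
  unfold rowM
  apply List.prod_eq_zero
  rw [List.mem_map]
  refine ⟨j - i - 1, List.mem_range.2 (by omega), ?_⟩
  have : i + 1 + (j - i - 1) = j := by omega
  rw [this]
  unfold rv
  exact pow_eq_zero_of_le hb (hp _ _)

open Classical in
theorem sum_pick (c : ℂ) (f : ℕ → ℕ → ℕ) (h : IsEx N l f ∨ c = 0 ∨ mon N q E f = 0) :
    ∑ b' : EX N l, (if b'.1 = f then c else 0) • mon N q E b'.1 = c • mon N q E f := by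
  by_cases hf : IsEx N l f
  · rw [Finset.sum_eq_single ⟨f, hf⟩]
    · simp
    · intro b' _ hb'
      rw [if_neg, zero_smul]
      intro h'
      exact hb' (Subtype.ext h')
    · simp
  · have h0 : c • mon N q E f = 0 := by
      rcases h with h | h | h
      · exact absurd h hf
      · simp [h]
      · simp [h]
    rw [h0]
    apply Finset.sum_eq_zero
    intro b' _
    rw [if_neg, zero_smul]
    intro h'
    exact hf (h' ▸ b'.2)

theorem qn_zero (q : ℂ) : qn q 0 = 0 := by simp [qn]

theorem isEx_mvr {b : ℕ → ℕ → ℕ} (hb : IsEx N l b) {i k : ℕ} (hik : i < k) (hk : k < N)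
    (h1 : b i (k + 1) + 1 < l) : IsEx N l (mvr b i k) := by
  intro i' j'
  unfold mvr inc upd
  constructor
  · intro hij
    have hbb := (hb i' j').1 hij
    have hb1 := (hb i k).1 ⟨hik, hk.le⟩
    split_ifs <;> first | omega | skip
    all_goals simp_all
  · intro hij
    have hbb := (hb i' j').2 hij
    have n1 : ¬ (i' = i ∧ j' = k + 1) := by rintro ⟨rfl, rfl⟩; exact hij ⟨by omega, by omega⟩
    have n2 : ¬ (i' = i ∧ j' = k) := by rintro ⟨rfl, rfl⟩; exact hij ⟨by omega, by omega⟩
    rw [if_neg n1, if_neg n2, hbb]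

theorem isEx_mvc {b : ℕ → ℕ → ℕ} (hb : IsEx N l b) {k j : ℕ} (hkj : k + 1 < j) (hj : j ≤ N)
    (h1 : b k j + 1 < l) : IsEx N l (mvc b k j) := by
  intro i' j'
  unfold mvc inc upd
  constructor
  · intro hij
    have hbb := (hb i' j').1 hij
    have hb1 := (hb (k + 1) j).1 ⟨hkj, hj⟩
    split_ifs <;> first | omega | skip
    all_goals simp_all
  · intro hij
    have hbb := (hb i' j').2 hij
    have n1 : ¬ (i' = k ∧ j' = j) := by rintro ⟨rfl, rfl⟩; exact hij ⟨by omega, by omega⟩
    have n2 : ¬ (i' = k + 1 ∧ j' = j) := by rintro ⟨rfl, rfl⟩; exact hij ⟨by omega, by omega⟩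
    rw [if_neg n1, if_neg n2, hbb]

theorem isEx_inc {b : ℕ → ℕ → ℕ} (hb : IsEx N l b) {k j : ℕ} (hkj : k < j) (hj : j ≤ N)
    (h1 : b k j + 1 < l) : IsEx N l (inc b k j) := by
  intro i' j'
  unfold inc upd
  constructor
  · intro hij
    have hbb := (hb i' j').1 hij
    split_ifs <;> omega
  · intro hij
    have hbb := (hb i' j').2 hij
    have n1 : ¬ (i' = k ∧ j' = j) := by rintro ⟨rfl, rfl⟩; exact hij ⟨by omega, by omega⟩
    rw [if_neg n1, hbb]

theorem mvr_val (b : ℕ → ℕ → ℕ) (i k : ℕ) : mvr b i k i (k + 1) = b i (k + 1) + 1 := by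
  simp [mvr, inc, upd]

theorem mvc_val (b : ℕ → ℕ → ℕ) (k j : ℕ) : mvc b k j k j = b k j + 1 := by
  simp [mvc, inc, upd]

theorem inc_val (b : ℕ → ℕ → ℕ) (k j : ℕ) : inc b k j k j = b k j + 1 := by
  simp [inc, upd]

theorem LM_EX (hLM : S_LM) (hq : q ≠ 0) (hq1 : q ^ 2 ≠ 1) (hq2 : q ^ 2 ≠ -1) (hs : SerreRel q E)
    (hp : ∀ d i, rvA q E d i ^ l = 0) (k : ℕ) (hk : k < N) (b : EX N l) :
    E k * mon N q E b.1 = ∑ b' : EX N l, Lf q k b.1 b'.1 • mon N q E b'.1 := by
  classical
  rw [hLM B N q E hq hq1 hq2 hs b.1 k hk]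
  unfold Lf
  simp only [add_smul, Finset.sum_add_distrib, Finset.sum_smul]
  rw [Finset.sum_comm]
  congr 1
  · apply Finset.sum_congr rfl
    intro i hi
    have hi' := Finset.mem_range.1 hi
    symm
    convert sum_pick (N := N) (l := l) (q := q) (E := E)
      (wL q b.1 k i * (-q * qn q (b.1 i k))) (mvr b.1 i k) ?_
    by_cases h0 : b.1 i k = 0
    · right; left; rw [h0, qn_zero]; ring
    · by_cases h1 : b.1 i (k + 1) + 1 < l
      · left; exact isEx_mvr b.2 hi' hk h1
      · right; right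
        exact mon_zero hp _ i (k + 1) (by omega) hk (by rw [mvr_val]; omega)
  · symm
    convert sum_pick (N := N) (l := l) (q := q) (E := E)
      (wL q b.1 k k) (inc b.1 k (k + 1)) ?_
    by_cases h1 : b.1 k (k + 1) + 1 < l
    · left; exact isEx_inc b.2 (by omega) hk h1
    · right; right
      exact mon_zero hp _ k (k + 1) (by omega) hk (by rw [inc_val]; omega)

/-- the coefficient of `b'` in the formal expression RM for `E^b E_k`. -/
def Rf (N : ℕ) (q : ℂ) (k : ℕ) (b b' : ℕ → ℕ → ℕ) : ℂ := by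
  classical
  exact (∑ j ∈ Finset.Ioc (k + 1) N,
      if b' = mvc b k j then wR N q b k j * (-q * qn q (b (k + 1) j)) else 0)
    + (if b' = inc b k (k + 1) then wR N q b k (k + 1) else 0)

theorem RM_EX (hRM : S_RM) (hq : q ≠ 0) (hq1 : q ^ 2 ≠ 1) (hq2 : q ^ 2 ≠ -1) (hs : SerreRel q E)
    (hp : ∀ d i, rvA q E d i ^ l = 0) (k : ℕ) (hk : k < N) (b : EX N l) :
    mon N q E b.1 * E k = ∑ b' : EX N l, Rf N q k b.1 b'.1 • mon N q E b'.1 := by
  classical
  rw [hRM B N q E hq hq1 hq2 hs b.1 k hk]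
  unfold Rf
  simp only [add_smul, Finset.sum_add_distrib, Finset.sum_smul]
  rw [Finset.sum_comm]
  congr 1
  · apply Finset.sum_congr rfl
    intro j hj
    have hj' := Finset.mem_Ioc.1 hj
    symm
    convert sum_pick (N := N) (l := l) (q := q) (E := E)
      (wR N q b.1 k j * (-q * qn q (b.1 (k + 1) j))) (mvc b.1 k j) ?_
    by_cases h0 : b.1 (k + 1) j = 0
    · right; left; rw [h0, qn_zero]; ring
    · by_cases h1 : b.1 k j + 1 < l
      · left; exact isEx_mvc b.2 hj'.1 hj'.2 h1
      · right; right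
        exact mon_zero hp _ k j (by omega) hj'.2 (by rw [mvc_val]; omega)
  · symm
    convert sum_pick (N := N) (l := l) (q := q) (E := E)
      (wR N q b.1 k (k + 1)) (inc b.1 k (k + 1)) ?_
    by_cases h1 : b.1 k (k + 1) + 1 < l
    · left; exact isEx_inc b.2 (by omega) hk h1
    · right; right
      exact mon_zero hp _ k (k + 1) (by omega) hk (by rw [inc_val]; omega)

end Gen

/-! ### the reflection -/

/-- reflection of exponents. -/
def star (N : ℕ) (b : ℕ → ℕ → ℕ) : ℕ → ℕ → ℕ := fun i j =>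
  if i < j ∧ j ≤ N then b (N - j) (N - i) else 0

/-- support in `i < j ≤ N`. -/
def Supp (N : ℕ) (b : ℕ → ℕ → ℕ) : Prop := ∀ i j, ¬ (i < j ∧ j ≤ N) → b i j = 0

theorem star_star {N : ℕ} {b : ℕ → ℕ → ℕ} (hb : Supp N b) : star N (star N b) = b := by
  funext i j
  unfold star
  by_cases h : i < j ∧ j ≤ N
  · rw [if_pos h, if_pos (by omega)]
    congr 1 <;> omega
  · rw [if_neg h, hb i j h]

theorem star_inj {N : ℕ} {b c : ℕ → ℕ → ℕ} (hb : Supp N b) (hc : Supp N c)
    (h : star N b = star N c) : b = c := by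
  rw [← star_star hb, ← star_star hc, h]

theorem star_isEx {N l : ℕ} {b : ℕ → ℕ → ℕ} (hb : IsEx N l b) : IsEx N l (star N b) := by
  intro i j
  unfold star
  constructor
  · intro h
    rw [if_pos h]
    exact (hb _ _).1 (by omega)
  · intro h
    rw [if_neg h]

/-- reflection as a permutation of `EX`. -/
def starE (N l : ℕ) : EX N l ≃ EX N l where
  toFun b := ⟨star N b.1, star_isEx b.2⟩
  invFun b := ⟨star N b.1, star_isEx b.2⟩
  left_inv b := Subtype.ext (star_star fun i j h => (b.2 i j).2 h)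
  right_inv b := Subtype.ext (star_star fun i j h => (b.2 i j).2 h)

theorem star_mvc {N : ℕ} {b : ℕ → ℕ → ℕ} {k j : ℕ} (hkj : k + 1 < j) (hj : j ≤ N) :
    star N (mvc b k j) = mvr (star N b) (N - j) (N - 1 - k) := by
  funext i' j'
  by_cases h : i' < j' ∧ j' ≤ N
  · unfold mvc mvr inc upd star
    have e1 : (N - j' = k ∧ N - i' = j) ↔ (i' = N - j ∧ j' = N - 1 - k + 1) := by omega
    have e2 : (N - j' = k + 1 ∧ N - i' = j) ↔ (i' = N - j ∧ j' = N - 1 - k) := by omega
    have e3 : N - j < N - 1 - k ∧ N - 1 - k ≤ N := by omega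
    have e4 : N - j < N - 1 - k + 1 ∧ N - 1 - k + 1 ≤ N := by omega
    have e5 : N - (N - 1 - k) = k + 1 := by omega
    have e6 : N - (N - 1 - k + 1) = k := by omega
    have e7 : N - (N - j) = j := by omega
    have e8 : ¬ (k = k + 1 ∧ True) := by omega
    have e9 : ¬ (True ∧ N - 1 - k + 1 = N - 1 - k) := by omega
    simp only [if_pos h, e1, e2, if_pos e3, if_pos e4, e5, e6, e7, if_neg e8, if_neg e9]
  · unfold mvc mvr inc upd star
    have n1 : ¬ (i' = N - j ∧ j' = N - 1 - k + 1) := by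
      rintro ⟨rfl, rfl⟩; exact h ⟨by omega, by omega⟩
    have n2 : ¬ (i' = N - j ∧ j' = N - 1 - k) := by
      rintro ⟨rfl, rfl⟩; exact h ⟨by omega, by omega⟩
    simp only [if_neg h, if_neg n1, if_neg n2]

theorem star_inc {N : ℕ} {b : ℕ → ℕ → ℕ} {k : ℕ} (hk : k < N) :
    star N (inc b k (k + 1)) = inc (star N b) (N - 1 - k) (N - 1 - k + 1) := by
  funext i' j'
  by_cases h : i' < j' ∧ j' ≤ N
  · unfold inc upd star
    have e1 : (N - j' = k ∧ N - i' = k + 1) ↔ (i' = N - 1 - k ∧ j' = N - 1 - k + 1) := by omega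
    have e4 : N - 1 - k < N - 1 - k + 1 ∧ N - 1 - k + 1 ≤ N := by omega
    have e5 : N - (N - 1 - k) = k + 1 := by omega
    have e6 : N - (N - 1 - k + 1) = k := by omega
    simp only [if_pos h, e1, if_pos e4, e5, e6]
  · unfold inc upd star
    have n1 : ¬ (i' = N - 1 - k ∧ j' = N - 1 - k + 1) := by
      rintro ⟨rfl, rfl⟩; exact h ⟨by omega, by omega⟩
    simp only [if_neg h, if_neg n1]

theorem supp_mvc {N : ℕ} {b : ℕ → ℕ → ℕ} (hb : Supp N b) {k j : ℕ} (hkj : k + 1 < j)
    (hj : j ≤ N) : Supp N (mvc b k j) := by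
  intro i' j' h
  unfold mvc inc upd
  have n1 : ¬ (i' = k ∧ j' = j) := by rintro ⟨rfl, rfl⟩; exact h ⟨by omega, by omega⟩
  have n2 : ¬ (i' = k + 1 ∧ j' = j) := by rintro ⟨rfl, rfl⟩; exact h ⟨by omega, by omega⟩
  rw [if_neg n1, if_neg n2, hb _ _ h]

theorem supp_inc {N : ℕ} {b : ℕ → ℕ → ℕ} (hb : Supp N b) {k j : ℕ} (hkj : k < j)
    (hj : j ≤ N) : Supp N (inc b k j) := by
  intro i' j' h
  unfold inc upd
  have n1 : ¬ (i' = k ∧ j' = j) := by rintro ⟨rfl, rfl⟩; exact h ⟨by omega, by omega⟩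
  rw [if_neg n1, hb _ _ h]

theorem star_iff {N : ℕ} {b c : ℕ → ℕ → ℕ} (hb : Supp N b) (hc : Supp N c) :
    star N b = star N c ↔ b = c :=
  ⟨star_inj hb hc, fun h => by rw [h]⟩

theorem wR_star {N : ℕ} (q : ℂ) (b : ℕ → ℕ → ℕ) {k j : ℕ} (hk : k < j) (hj : j ≤ N) :
    wL q (star N b) (N - 1 - k) (N - j) = wR N q b k j := by
  unfold wL wR
  refine Finset.prod_bij' (fun i _ => N - i) (fun j' _ => N - j') ?_ ?_ ?_ ?_ ?_
  · intro i hi
    rw [Finset.mem_range] at hi
    rw [Finset.mem_Ioc]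
    omega
  · intro i hi
    rw [Finset.mem_Ioc] at hi
    rw [Finset.mem_range]
    omega
  · intro i hi
    rw [Finset.mem_range] at hi
    omega
  · intro i hi
    rw [Finset.mem_Ioc] at hi
    omega
  · intro i hi
    rw [Finset.mem_range] at hi
    unfold star
    rw [if_pos (by omega), if_pos (by omega)]
    have e1 : N - (N - 1 - k) = k + 1 := by omega
    have e2 : N - (N - 1 - k + 1) = k := by omega
    rw [e1, e2]

theorem Rf_star {N l : ℕ} (q : ℂ) {k : ℕ} (hk : k < N) (b b' : EX N l) :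
    Lf q (N - 1 - k) (star N b.1) (star N b'.1) = Rf N q k b.1 b'.1 := by
  classical
  have hb : Supp N b.1 := fun i j h => (b.2 i j).2 h
  have hb' : Supp N b'.1 := fun i j h => (b'.2 i j).2 h
  unfold Lf Rf
  congr 1
  · refine Finset.sum_bij' (fun i _ => N - i) (fun j' _ => N - j') ?_ ?_ ?_ ?_ ?_
    · intro i hi
      rw [Finset.mem_range] at hi
      rw [Finset.mem_Ioc]
      omega
    · intro i hi
      rw [Finset.mem_Ioc] at hi
      rw [Finset.mem_range]
      omega
    · intro i hi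
      rw [Finset.mem_range] at hi
      omega
    · intro i hi
      rw [Finset.mem_Ioc] at hi
      omega
    · intro i hi
      rw [Finset.mem_range] at hi
      have e1 := wR_star (N := N) q b.1 (k := k) (j := N - i) (by omega) (by omega)
      have e2 : N - (N - i) = i := by omega
      rw [e2] at e1
      rw [← e1]
      have e3 : star N b.1 i (N - 1 - k) = b.1 (k + 1) (N - i) := by
        unfold star
        rw [if_pos (by omega)]
        have e6 : N - (N - 1 - k) = k + 1 := by omega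
        rw [e6]
      rw [e3]
      have e4 := star_mvc (N := N) (b := b.1) (k := k) (j := N - i) (by omega) (by omega)
      rw [e2] at e4
      rw [← e4]
      have e5 := star_iff hb' (supp_mvc hb (k := k) (j := N - i) (by omega) (by omega))
      simp only [e5]
  · have e1 := wR_star (N := N) q b.1 (k := k) (j := k + 1) (by omega) (by omega)
    have e2 : N - (k + 1) = N - 1 - k := by omega
    rw [e2] at e1
    rw [← e1, ← star_inc hk]
    have e5 := star_iff hb' (supp_inc hb (k := k) (j := k + 1) (by omega) (by omega))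
    simp only [e5]

theorem star_top (N l : ℕ) : star N (topE N l) = topE N l := by
  funext i j
  unfold star topE
  by_cases h : i < j ∧ j ≤ N
  · rw [if_pos h, if_pos h, if_pos (by omega)]
  · rw [if_neg h, if_neg h]

/-- the joint kernel of the formal right multiplications. -/
theorem jk_right (hJK : S_JK) {N l : ℕ} {q : ℂ} (hP : Par N l q) (x : EX N l → ℂ)
    (hx : ∀ k, k < N → ∀ b' : EX N l, ∑ b : EX N l, x b * Rf N q k b.1 b'.1 = 0)
    (b : EX N l) (hb : b.1 ≠ topE N l) : x b = 0 := by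
  have h := hJK N l q hP (fun c => x (starE N l c)) ?_ (starE N l b) ?_
  · have e : starE N l (starE N l b) = b := (starE N l).left_inv b
    rw [e] at h
    exact h
  · intro k hk b'
    have h1 := hx (N - 1 - k) (by omega) (starE N l b')
    rw [← h1]
    refine Finset.sum_bij' (fun c _ => starE N l c) (fun c _ => starE N l c)
      (fun _ _ => Finset.mem_univ _) (fun _ _ => Finset.mem_univ _)
      (fun c _ => (starE N l).left_inv c) (fun c _ => (starE N l).left_inv c) ?_
    intro c _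
    have h2 := Rf_star (N := N) (l := l) q (k := N - 1 - k) (by omega) (starE N l c)
      (starE N l b')
    have e1 : N - 1 - (N - 1 - k) = k := by omega
    have e2 : star N (starE N l c).1 = c.1 := star_star fun i j h => (c.2 i j).2 h
    have e3 : star N (starE N l b').1 = b'.1 := star_star fun i j h => (b'.2 i j).2 h
    rw [e1, e2, e3] at h2
    rw [h2]
  · intro h'
    apply hb
    have h2 : star N b.1 = topE N l := h'
    rw [← star_top] at h2
    refine star_inj (fun i j h => (b.2 i j).2 h) ?_ h2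
    intro i j h
    unfold topE
    rw [if_neg h]

/-! ### longest words -/

section Words

variable {B : Type} [Ring B] [Algebra ℂ B]

theorem left_top (f : ℕ → B) (n : ℕ) (hn : ∀ w : List ℕ, w.length = n → (w.map f).prod = 0)
    (x : B) (hx : x ≠ 0) : ∃ u, u * x ≠ 0 ∧ ∀ k, f k * (u * x) = 0 := by
  by_contra hcon
  push Not at hcon
  have h1 : ∀ m : ℕ, ∃ w : List ℕ, w.length = m ∧ (w.map f).prod * x ≠ 0 := by
    intro m
    induction m with
    | zero => exact ⟨[], rfl, by simpa using hx⟩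
    | succ m ih =>
      obtain ⟨w, hw, h⟩ := ih
      obtain ⟨k, hk⟩ := hcon _ h
      exact ⟨k :: w, by simp [hw], by simpa [mul_assoc] using hk⟩
  obtain ⟨w, hw, h⟩ := h1 n
  exact h (by rw [hn w hw, zero_mul])

theorem right_top (f : ℕ → B) (n : ℕ) (hn : ∀ w : List ℕ, w.length = n → (w.map f).prod = 0)
    (x : B) (hx : x ≠ 0) : ∃ v, x * v ≠ 0 ∧ ∀ k, (x * v) * f k = 0 := by
  by_contra hcon
  push Not at hcon
  have h1 : ∀ m : ℕ, ∃ w : List ℕ, w.length = m ∧ x * (w.map f).prod ≠ 0 := by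
    intro m
    induction m with
    | zero => exact ⟨[], rfl, by simpa using hx⟩
    | succ m ih =>
      obtain ⟨w, hw, h⟩ := ih
      obtain ⟨k, hk⟩ := hcon _ h
      exact ⟨w ++ [k], by simp [hw], by simpa [mul_assoc] using hk⟩
  obtain ⟨w, hw, h⟩ := h1 n
  exact h (by rw [hn w hw, mul_zero])

theorem word_zero (hSP : S_SPAN) (hHT : S_HTOP) {N l : ℕ} {q : ℂ} {E : ℕ → B} (hl : 0 < l)
    (hq : q ≠ 0) (hq1 : q ^ 2 ≠ 1) (hq2 : q ^ 2 ≠ -1) (hs : SerreRel q E)
    (ho : ∀ i, N ≤ i → E i = 0) (hp : ∀ d i, rvA q E d i ^ l = 0) (w : List ℕ)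
    (hw : w.length = ht N (topE N l) + 1) : (w.map E).prod = 0 := by
  have h1 := hSP B N l q E hl hq hq1 hq2 hs ho hp w
  have h2 : {x : B | ∃ b, IsEx N l b ∧ ht N b = w.length ∧ x = mon N q E b} = ∅ := by
    ext x
    simp only [Set.mem_setOf_eq, Set.mem_empty_iff_false, iff_false]
    rintro ⟨b, hb, hbw, -⟩
    have := (hHT N l b hb).1
    omega
  rw [h2, Submodule.span_empty, Submodule.mem_bot] at h1
  exact h1

end Words

/-! ### commutation up to a nonzero scalar -/

section QC

variable {B : Type} [Ring B] [Algebra ℂ B]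

/-- `x` and `y` commute up to a nonzero scalar. -/
def QC (x y : B) : Prop := ∃ s : ℂ, s ≠ 0 ∧ x * y = s • (y * x)

theorem QC.one (x : B) : QC x 1 := ⟨1, one_ne_zero, by simp⟩

theorem QC.mul {x y z : B} (h1 : QC x y) (h2 : QC x z) : QC x (y * z) := by
  obtain ⟨s, hs, h1⟩ := h1
  obtain ⟨r, hr, h2⟩ := h2
  refine ⟨s * r, mul_ne_zero hs hr, ?_⟩
  rw [← mul_assoc, h1, smul_mul_assoc, mul_assoc, h2, mul_smul_comm, smul_smul, mul_assoc]

theorem QC.pow {x y : B} (h : QC x y) (n : ℕ) : QC x (y ^ n) := by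
  induction n with
  | zero => rw [pow_zero]; exact QC.one x
  | succ n ih => rw [pow_succ]; exact ih.mul h

theorem QC.prod {x : B} (L : List B) (h : ∀ y ∈ L, QC x y) : QC x L.prod := by
  induction L with
  | nil => exact QC.one x
  | cons y L ih =>
    rw [List.prod_cons]
    exact (h y (by simp)).mul (ih fun z hz => h z (by simp [hz]))

theorem QC.symm {x y : B} (h : QC x y) : QC y x := by
  obtain ⟨s, hs, h⟩ := h
  exact ⟨s⁻¹, inv_ne_zero hs, by rw [h, smul_smul, inv_mul_cancel₀ hs, one_smul]⟩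

theorem QC.rvA {q : ℂ} {E : ℕ → B} {x : B} (h : ∀ i, QC x (E i)) (d i : ℕ) :
    QC x (rvA q E d i) := by
  induction d generalizing i with
  | zero => exact h i
  | succ d ih =>
    obtain ⟨s, hs, h1⟩ := h i
    obtain ⟨r, hr, h2⟩ := ih (i + 1)
    refine ⟨s * r, mul_ne_zero hs hr, ?_⟩
    unfold Pool.Agent.Helper19.SQ.rvA
    generalize Pool.Agent.Helper19.SQ.rvA q E d (i + 1) = R at *
    have e1 : x * (E i * R) = (s * r) • (E i * R * x) := by
      rw [← mul_assoc, h1, smul_mul_assoc, mul_assoc, h2, mul_smul_comm, smul_smul, mul_assoc]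
    have e2 : x * (R * E i) = (s * r) • (R * E i * x) := by
      rw [← mul_assoc, h2, smul_mul_assoc, mul_assoc, h1, mul_smul_comm, smul_smul, mul_assoc,
        mul_comm s r]
    rw [mul_sub, mul_smul_comm, e1, e2, sub_mul, smul_mul_assoc, smul_sub, smul_comm q⁻¹]

theorem QC.mon {N : ℕ} {q : ℂ} {E : ℕ → B} {x : B} (h : ∀ i, QC x (E i)) (b : ℕ → ℕ → ℕ) :
    QC x (mon N q E b) := by
  apply QC.prod
  intro y hy
  rw [List.mem_map] at hy
  obtain ⟨i, -, rfl⟩ := hy
  apply QC.prod
  intro y hy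
  rw [List.mem_map] at hy
  obtain ⟨d, -, rfl⟩ := hy
  exact (QC.rvA h _ _).pow _

theorem QC.kmon {N : ℕ} {K : ℕ → B} {x : B} (h : ∀ j, QC x (K j)) (κ : ℕ → ℕ) :
    QC x (kmon N K κ) := by
  apply QC.prod
  intro y hy
  rw [List.mem_map] at hy
  obtain ⟨i, -, rfl⟩ := hy
  exact (h i).pow _

theorem list_pow_add (K : ℕ → B) (hK : ∀ i j, K i * K j = K j * K i) (a b : ℕ → ℕ)
    (L : List ℕ) : (L.map fun j => K j ^ a j).prod * (L.map fun j => K j ^ b j).prod
      = (L.map fun j => K j ^ (a j + b j)).prod := by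
  induction L with
  | nil => simp
  | cons i L ih =>
    simp only [List.map_cons, List.prod_cons]
    have hc : Commute (K i ^ b i) (L.map fun j => K j ^ a j).prod := by
      apply Commute.list_prod_right
      intro x hx
      rw [List.mem_map] at hx
      obtain ⟨j, -, rfl⟩ := hx
      exact Commute.pow_pow (show Commute (K i) (K j) from hK i j) _ _
    rw [← ih, pow_add]
    calc K i ^ a i * (L.map fun j => K j ^ a j).prod * (K i ^ b i * (L.map fun j => K j ^ b j).prod)
        = K i ^ a i * ((L.map fun j => K j ^ a j).prod * K i ^ b i)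
            * (L.map fun j => K j ^ b j).prod := by simp only [mul_assoc]
      _ = K i ^ a i * (K i ^ b i * (L.map fun j => K j ^ a j).prod)
            * (L.map fun j => K j ^ b j).prod := by rw [hc.eq]
      _ = _ := by simp only [mul_assoc]

theorem kmon_mul {N l : ℕ} [NeZero l] (K : ℕ → B) (hK : ∀ i j, K i * K j = K j * K i)
    (hl : ∀ j, K j ^ l = 1) (κ κ' : Fin (N + 1) → Fin l) :
    kmon N K (kx κ) * kmon N K (kx κ') = kmon N K (kx (κ + κ')) := by
  unfold kmon
  rw [list_pow_add K hK]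
  congr 1
  apply List.map_congr_left
  intro j hj
  rw [List.mem_range] at hj
  unfold kx
  rw [dif_pos hj, dif_pos hj, dif_pos hj]
  rw [Pi.add_apply, Fin.val_add]
  exact (pow_eq_pow_mod _ (hl j))

end QC

/-! ### the main part -/

section Main

variable {N l : ℕ} {q : ℂ}

/-- the PBW basis. -/
def pbB (h1 : LinearIndependent ℂ (pb N l q))
    (h2 : Submodule.span ℂ (Set.range (pb N l q)) = ⊤) :
    Module.Basis (EX N l × (Fin (N + 1) → Fin l) × EX N l) ℂ (A N l q) :=
  Module.Basis.mk h1 h2.ge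

theorem pbB_apply (h1 : LinearIndependent ℂ (pb N l q))
    (h2 : Submodule.span ℂ (Set.range (pb N l q)) = ⊤) (z) :
    pbB h1 h2 z = pb N l q z := by
  simp [pbB]

theorem kill_left (hP : Par N l q) (hLM : S_LM) (hJK : S_JK)
    (h1 : LinearIndependent ℂ (pb N l q)) (c : EX N l × (Fin (N + 1) → Fin l) × EX N l → ℂ)
    (hx : ∀ k, gF N l q k * ∑ z, c z • pb N l q z = 0) (a : EX N l) (p) (ha : a.1 ≠ topE N l) :
    c (a, p) = 0 := by
  obtain ⟨hq, hq1, hq2⟩ := par_facts hP
  refine hJK N l q hP (fun a => c (a, p)) ?_ a ha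
  intro k hk a'
  have h3 := hx k
  have h4 : gF N l q k * ∑ z, c z • pb N l q z
      = ∑ z : EX N l × (Fin (N + 1) → Fin l) × EX N l,
        (∑ b : EX N l, c (b, z.2) * Lf q k b.1 z.1.1) • pb N l q z := by
    rw [Finset.mul_sum, Fintype.sum_prod_type, Fintype.sum_prod_type, Finset.sum_comm]
    conv_rhs => rw [Finset.sum_comm]
    apply Finset.sum_congr rfl
    intro p _
    simp only [Finset.sum_smul]
    conv_rhs => rw [Finset.sum_comm]
    apply Finset.sum_congr rfl
    intro b _
    have e : pb N l q (b, p) = mon N q (gF N l q) b.1 *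
      (kmon N (gK N l q) (kx p.1) * mon N q (gE N l q) p.2.1) := by
      unfold pb; rw [mul_assoc]
    rw [mul_smul_comm, e, ← mul_assoc,
      LM_EX hLM hq hq1 hq2 (glA N l q).sF (glA N l q).pF k hk b, Finset.sum_mul, Finset.smul_sum]
    apply Finset.sum_congr rfl
    intro b' _
    unfold pb
    rw [smul_mul_assoc, smul_smul, mul_assoc]
  rw [h4] at h3
  exact Fintype.linearIndependent_iff.1 h1 _ h3 (a', p)

theorem kill_right (hP : Par N l q) (hRM : S_RM) (hJK : S_JK)
    (h1 : LinearIndependent ℂ (pb N l q)) (c : EX N l × (Fin (N + 1) → Fin l) × EX N l → ℂ)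
    (hx : ∀ k, (∑ z, c z • pb N l q z) * gE N l q k = 0) (a : EX N l) (κ) (b : EX N l)
    (hb : b.1 ≠ topE N l) : c (a, κ, b) = 0 := by
  obtain ⟨hq, hq1, hq2⟩ := par_facts hP
  refine jk_right hJK hP (fun b => c (a, κ, b)) ?_ b hb
  intro k hk b'
  have h3 := hx k
  have h4 : (∑ z, c z • pb N l q z) * gE N l q k
      = ∑ z : EX N l × (Fin (N + 1) → Fin l) × EX N l,
        (∑ b : EX N l, c (z.1, z.2.1, b) * Rf N q k b.1 z.2.2.1) • pb N l q z := by
    rw [Finset.sum_mul, Fintype.sum_prod_type, Fintype.sum_prod_type]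
    apply Finset.sum_congr rfl
    intro a _
    rw [Fintype.sum_prod_type, Fintype.sum_prod_type]
    apply Finset.sum_congr rfl
    intro κ _
    simp only [Finset.sum_smul]
    conv_rhs => rw [Finset.sum_comm]
    apply Finset.sum_congr rfl
    intro b _
    have e : pb N l q (a, κ, b) = mon N q (gF N l q) a.1 *
      kmon N (gK N l q) (kx κ) * mon N q (gE N l q) b.1 := rfl
    rw [smul_mul_assoc, e, mul_assoc,
      RM_EX hRM hq hq1 hq2 (glA N l q).sE (glA N l q).pE k hk b, Finset.mul_sum, Finset.smul_sum]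
    apply Finset.sum_congr rfl
    intro b' _
    unfold pb
    rw [mul_smul_comm, smul_smul]
  rw [h4] at h3
  exact Fintype.linearIndependent_iff.1 h1 _ h3 (a, κ, b')

/-- TFN. -/
theorem s_tfn (hPI : S_PBWI) (hPS : S_PBWS) (hLM : S_LM) (hRM : S_RM) (hJK : S_JK)
    (hSP : S_SPAN) (hHT : S_HTOP) : S_TFN := by
  classical
  intro N l _ q D hP t ht htr x hx
  by_contra hx0
  have h1 := hPI N l q D hP
  have h2 := hPS N l q hP
  obtain ⟨hq, hq1, hq2⟩ := par_facts hP
  have hl : 0 < l := Nat.pos_of_ne_zero (NeZero.ne l)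
  have g := glA N l q
  have wF := fun w hw => word_zero hSP hHT hl hq hq1 hq2 g.sF g.F_out g.pF w hw
  have wE := fun w hw => word_zero hSP hHT hl hq hq1 hq2 g.sE g.E_out g.pE w hw
  obtain ⟨u, hu, hu'⟩ := left_top (gF N l q) _ wF x hx0
  obtain ⟨v, hv, hv'⟩ := right_top (gE N l q) _ wE _ hu
  set y := u * x * v with hy
  have hyF : ∀ k, gF N l q k * y = 0 := by
    intro k
    rw [hy, ← mul_assoc, hu' k, zero_mul]
  set Bb := pbB h1 h2 with hBb
  have hsum : ∑ z, Bb.repr y z • pb N l q z = y := by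
    have := Bb.sum_repr y
    simpa only [hBb, pbB_apply] using this
  have hL := kill_left hP hLM hJK h1 (fun z => Bb.repr y z) (by rw [hsum]; exact hyF)
  have hR := kill_right hP hRM hJK h1 (fun z => Bb.repr y z) (by rw [hsum]; exact hv')
  -- a nonzero coefficient
  have hnz : ∃ z, Bb.repr y z ≠ 0 := by
    by_contra hcon
    push Not at hcon
    apply hv
    rw [← hsum]
    apply Finset.sum_eq_zero
    intro z _
    rw [hcon z, zero_smul]
  obtain ⟨⟨a, κ, b⟩, hz⟩ := hnz
  have ha : a.1 = topE N l := by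
    by_contra h
    exact hz (hL a (κ, b) h)
  have hb : b.1 = topE N l := by
    by_contra h
    exact hz (hR a κ b h)
  -- multiply by `K^{-κ}`
  have hqc : QC (mon N q (gE N l q) (topE N l)) (kmon N (gK N l q) (kx (-κ))) := by
    apply QC.kmon
    intro j
    apply QC.symm
    apply QC.mon
    intro i
    exact ⟨q ^ pr j i, zpow_ne_zero _ hq, g.KE j i⟩
  obtain ⟨s, hs, hqc⟩ := hqc
  have hval : ∀ z : EX N l × (Fin (N + 1) → Fin l) × EX N l,
      Bb.repr y z * t (pb N l q z * kmon N (gK N l q) (kx (-κ)))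
        = if z = (a, κ, b) then Bb.repr y z * s else 0 := by
    rintro ⟨a', κ', b'⟩
    by_cases ha' : a'.1 = topE N l
    · by_cases hb' : b'.1 = topE N l
      · have e1 : a' = a := Subtype.ext (ha'.trans ha.symm)
        have e2 : b' = b := Subtype.ext (hb'.trans hb.symm)
        rw [e1, e2]
        have e3 : pb N l q (a, κ', b) * kmon N (gK N l q) (kx (-κ))
            = s • pb N l q (a, κ' + -κ, b) := by
          unfold pb
          simp only
          rw [hb, mul_assoc, hqc, mul_smul_comm, ← mul_assoc,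
            mul_assoc (mon N q (gF N l q) a.1), kmon_mul _ g.K_comm g.K_pow]
        rw [e3, map_smul, ht]
        by_cases hk : κ' = κ
        · subst hk
          have e4 : ∀ j : Fin (N + 1), (((κ' + -κ') j : Fin l) : ℕ) = 0 := by
            intro j
            rw [add_neg_cancel]
            simp
          rw [if_pos ⟨ha, e4, hb⟩, if_pos rfl]
          simp
        · rw [if_neg, if_neg]
          · simp
          · intro h
            exact hk (Prod.ext_iff.1 (Prod.ext_iff.1 h).2).1
          · rintro ⟨-, h, -⟩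
            apply hk
            have h0 : κ' + -κ = 0 := by
              funext j
              apply Fin.ext
              simpa using h j
            exact eq_of_sub_eq_zero (by rw [sub_eq_add_neg]; exact h0)
      · rw [show Bb.repr y (a', κ', b') = 0 from hR a' κ' b' hb']
        simp
    · rw [show Bb.repr y (a', κ', b') = 0 from hL a' (κ', b') ha']
      simp
  have hfin : t (y * kmon N (gK N l q) (kx (-κ))) = Bb.repr y (a, κ, b) * s := by
    conv_lhs => rw [← hsum]
    rw [Finset.sum_mul, map_sum]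
    have : ∀ z, t (Bb.repr y z • pb N l q z * kmon N (gK N l q) (kx (-κ)))
        = if z = (a, κ, b) then Bb.repr y z * s else 0 := by
      intro z
      rw [smul_mul_assoc, map_smul, smul_eq_mul, hval z]
    simp only [this]
    rw [Finset.sum_ite_eq' Finset.univ]
    simp
  have hzero : t (y * kmon N (gK N l q) (kx (-κ))) = 0 := by
    rw [hy]
    have e : u * x * v * kmon N (gK N l q) (kx (-κ))
        = u * (x * (v * kmon N (gK N l q) (kx (-κ)))) := by simp only [mul_assoc]
    rw [e, htr, mul_assoc]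
    exact hx _
  rw [hzero] at hfin
  exact mul_ne_zero hz hs hfin.symm

end Main

end

end Pool.Agent.Helper64.SQ
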