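import Pool.Agent.Helper41.SQ.GoalsN

/-!
Project SQ (MP_bb32d1_al), stage B, packet SQN-VANE.
-/

set_option autoImplicit false

namespace Pool.Agent.Helper64.SQN

noncomputable section

open Matrix Pool.Agent.Helper19.SQ Pool.Agent.Helper34.SQ Pool.Agent.Helper41.SQ

variable {A : Type} [Ring A] [Algebra ℂ A] {ι : Type} [Fintype ι] [DecidableEq ι] {l : ℕ}

/-- the chain of functionals. -/
def chn (C : Core A ι l) (c : ZMod l) (m : ZMod l → ℤ) (τ : A →ₗ[ℂ] ℂ) :
    ℕ → ι × ι → (A →ₗ[ℂ] ℂ)
  | 0 => fun y => Helper28.SQ.fnl τ C.ε (C.e (m + al c)) y.2 y.1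
  | j + 1 => Helper54.SQ.om C.ε (act (chn C c m τ j) (sc A C.T))

theorem act_zero (M : Matrix (ι × ι) (ι × ι) A) :
    act (0 : ι × ι → (A →ₗ[ℂ] ℂ)) M = 0 := by
  funext y
  ext b
  rw [act_apply]
  simp

/-- **SQN-VANE** -/
theorem n_vane (hSIDE : S_SIDE) (hSDE : S_SDE) (hBLK : S_BLK) (hSTP : S_STP) (hCT : S_CT)
    (hOMF : S_OMF) (hSG1 : S_SG1) : S_VANE := by
  intro A _ _ ι _ _ l hl C P ζ c m τ hτ hyp
  obtain ⟨S, hD, -, hR, hz⟩ := hSDE A ι C.toCore0 P
  have hblk := (hBLK A ι l hl C S c).1 hD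
  -- the hypothesis of SIDE
  have hh : ∀ k x, τ (Matrix.trace (S.X ^ k * S.D (x * C.e (m + al c)))) = 0 := by
    intro k x
    rw [← hyp k x, Matrix.trace]
    have h1 : ∀ p, (S.X ^ k * S.D (x * C.e (m + al c))) p p =
        ∑ i, S.D (S.z k p i * (x * C.e (m + al c))) i p := by
      intro p
      rw [Matrix.mul_apply]
      have h2 : ∀ r, (S.X ^ k) p r * S.D (x * C.e (m + al c)) r p =
          ∑ i, S.D (S.z k p i) i r * S.D (x * C.e (m + al c)) r p := by
        intro r
        rw [S.zX, Finset.sum_mul]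
      rw [Finset.sum_congr rfl fun r _ => h2 r, Finset.sum_comm]
      refine Finset.sum_congr rfl fun i _ => ?_
      rw [map_mul S.D (S.z k p i), Matrix.mul_apply]
    simp only [Matrix.diag_apply, h1]
    simp only [map_sum, hz, hD]
    rw [Finset.sum_comm]
  have side := hSIDE A ι S l C.e C.types _ (al c) hblk τ m hτ.tr hτ.blk hh
  -- the chain
  have key : ∀ j : ℕ, IsEF C ζ c (m + (j + 1) • al c) (chn C c m τ j) ∧
      ∀ p a b, chn C c m τ j (p, a) b =
        sge S τ (fun j => C.e (m + (j + 1) • al c)) j p a b := by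
    intro j
    induction j with
    | zero =>
      constructor
      · rw [zero_add, one_smul]
        exact (hSG1 A ι l C ζ c m τ hτ).1
      · intro p a b
        change τ (C.ε (b * C.e (m + al c)) a p) = τ (S.D (b * C.e (m + (0 + 1) • al c)) a p)
        rw [zero_add, one_smul, hD]
    | succ j ih =>
      obtain ⟨ih1, ih2⟩ := ih
      have h1 : ∀ k x, ∑ i, ∑ p, chn C c m τ j (i, p) ((C.X ^ k) p i * x) = 0 := by
        intro k x
        rw [← side j k x]
        refine Finset.sum_congr rfl fun i _ => Finset.sum_congr rfl fun p _ => ?_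
        rw [ih2, hz]
      have h2 := hCT A ι C.toCore0 P (chn C c m τ j) h1
      have h3 := (hSTP A ι l C ζ c (m + (j + 1) • al c) (chn C c m τ j)).1 ih1 h2
      have h4 := ((hOMF A ι l C ζ c (m + (j + 1) • al c) _).1 h3).1
      have e1 : m + (j + 1) • al c + al c = m + (j + 1 + 1) • al c := by
        rw [succ_nsmul (al c) (j + 1), add_assoc]
      rw [e1] at h4
      refine ⟨h4, ?_⟩
      intro p a b
      have h5 := h4.t3 b (p, a)
      change Helper54.SQ.om C.ε (act (chn C c m τ j) (sc A C.T)) (p, a) b = _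
      rw [← h5, Helper54.SQ.om_apply]
      change _ = ∑ k, ∑ x, ∑ y, S.R (a, x) (k, y) *
        sge S τ (fun j => C.e (m + (j + 1) • al c)) j x y
          (S.D (b * C.e (m + (j + 1 + 1) • al c)) k p)
      refine Finset.sum_congr rfl fun k _ => ?_
      rw [act_apply, Fintype.sum_prod_type]
      refine Finset.sum_congr rfl fun x _ => Finset.sum_congr rfl fun y _ => ?_
      rw [← ih2, hR, hD]
      change chn C c m τ j (x, y) (algebraMap ℂ A (C.T (x, y) (a, k)) * _) =
        C.T (x, y) (a, k) * _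
      rw [← Algebra.smul_def, map_smul, smul_eq_mul]
  -- for large `j` the functionals vanish
  have hlarge : ∃ J, chn C c m τ J = 0 := by
    refine ⟨(m (c + 1)).toNat, ?_⟩
    have hne : c + 1 ≠ c := by
      have : Fact (1 < l) := ⟨hl⟩
      intro h
      have h1 : (1 : ZMod l) = 0 := by
        have := congrArg (fun x => x - c) h
        simpa using this
      exact one_ne_zero h1
    have hal : al c (c + 1) = -1 := by
      unfold al
      rw [if_neg hne, if_pos rfl]
      norm_num
    have he : C.e (m + ((m (c + 1)).toNat + 1) • al c) = 0 := by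
      apply C.e_types
      intro hmem
      have := C.types_nonneg _ hmem (c + 1)
      rw [Pi.add_apply, Pi.smul_apply, hal, nsmul_eq_mul] at this
      push_cast at this
      have h2 := Int.self_le_toNat (m (c + 1))
      linarith
    funext y
    ext b
    have h3 := (key (m (c + 1)).toNat).1.t3 b y
    rw [he, mul_zero, map_zero] at h3
    rw [← h3]
    rfl
  have hdown : ∀ j, chn C c m τ (j + 1) = 0 → chn C c m τ j = 0 := by
    intro j hj
    obtain ⟨ih1, ih2⟩ := key j
    have h1 : ∀ k x, ∑ i, ∑ p, chn C c m τ j (i, p) ((C.X ^ k) p i * x) = 0 := by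
      intro k x
      rw [← side j k x]
      refine Finset.sum_congr rfl fun i _ => Finset.sum_congr rfl fun p _ => ?_
      rw [ih2, hz]
    have h2 := hCT A ι C.toCore0 P (chn C c m τ j) h1
    have h3 := (hSTP A ι l C ζ c (m + (j + 1) • al c) (chn C c m τ j)).1 ih1 h2
    have h4 := ((hOMF A ι l C ζ c (m + (j + 1) • al c) _).1 h3).2 hj
    have h5 : act (act (chn C c m τ j) (sc A C.T)) (sc A C.S) = chn C c m τ j := by
      rw [act_act, sc_mul, C.TS, sc_one, act_one]
    rw [← h5, h4, act_zero]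
  have h0 : chn C c m τ 0 = 0 := by
    obtain ⟨J, hJ⟩ := hlarge
    induction J with
    | zero => exact hJ
    | succ J ih => exact ih (hdown J hJ)
  have hfin : ∀ b i j, τ (C.ε (b * C.e (m + al c)) i j) = 0 := by
    intro b i j
    have h1 := congrFun h0 (j, i)
    have h2 := congrArg (fun F : A →ₗ[ℂ] ℂ => F b) h1
    exact h2
  intro y b i j
  rw [← Helper28.SQ.capA C, map_sum]
  refine Finset.sum_eq_zero fun k _ => ?_
  rw [← mul_assoc]
  exact hfin _ _ _

end

end Pool.Agent.Helper64.SQN
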